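import Pool.Agent.H84.SF.Geo2

/-!
Board sfc_modules, row GND: divisibility by the equation of `D` in the local ring.
-/

set_option autoImplicit false

namespace Pool.Agent.H40.SF

open MvPolynomial SC
open Pool.Agent.H27.LV (ge deg poleOrder canDeg)
open Pool.Agent.H92.OD (HS cf sg uu Lat geO IsO DF DD)
open Pool.Agent.H84.SM (y1 y2 Near cr dt dp)
open Pool.Agent.H3.SF (Itg Bb BB Hm eu grd hes Sfc Crd Cnn Crf Prm nv)
open Pool.Agent.H84.SF

theorem itg_aevalX {k F σ : Type} [Field k] [Field F] [Algebra k F] {X : σ → F} {u : Fin 3 → F}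
    (hX : ∀ i, Itg k u (X i)) (f : MvPolynomial σ k) : Itg k u (aeval X f) := by
  have h1 : aeval X f ∈ Algebra.adjoin k (Set.range X) := by
    rw [Algebra.adjoin_range_eq_range_aeval]
    exact ⟨f, rfl⟩
  have h2 : Algebra.adjoin k (Set.range X) ≤ Bb k u := by
    refine Algebra.adjoin_le ?_
    rintro _ ⟨i, rfl⟩
    exact hX i
  exact h2 h1

theorem pf_GND (hEVS : T_EVS) : T_GND := by
  intro k F σ _ _ _ _ _ _ X u dd J j0 m G GP hS hD s hC hs L0 hL0 hL0s Gs hGs h w e hw hhw hnd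
    hdiv
  obtain ⟨ev, hev⟩ := hEVS k F σ X u dd J j0 hS s hC
  obtain ⟨q, hq⟩ := hdiv
  obtain ⟨d, a, b, ⟨ha, hb, hab⟩, hbs⟩ := q.2
  have hG0 : G ≠ 0 := hD.crd.ne
  have hh : (h : F) = Gs * q := by
    rw [hq]
    rfl
  have e1 : w * aeval X (b * L0 ^ m) / G = aeval X (a * L0 ^ e) := by
    rw [div_eq_iff hG0, ← hhw, hh, map_mul, map_mul, map_pow, map_pow, ← hab, ← hGs]
    ring
  have i1 : Itg k u (aeval X (b * L0 ^ m)) := itg_aevalX hS.Xint _
  have i2 : Itg k u (w * aeval X (b * L0 ^ m) / G) := by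
    rw [e1]
    exact itg_aevalX hS.Xint _
  rcases hD.crd.prm w _ hw i1 i2 with h3 | h3
  · exact hnd h3
  · have i4 : Itg k u G := hD.crd.itg
    have e2 : (⟨aeval X (b * L0 ^ m), i1⟩ : Bb k u) =
        ⟨G, i4⟩ * ⟨aeval X (b * L0 ^ m) / G, h3⟩ := by
      apply Subtype.ext
      change aeval X (b * L0 ^ m) = G * (aeval X (b * L0 ^ m) / G)
      rw [mul_div_cancel₀ _ hG0]
    have e3 : ev ⟨aeval X (b * L0 ^ m), i1⟩ =
        ev (⟨G, i4⟩ : Bb k u) * ev ⟨aeval X (b * L0 ^ m) / G, h3⟩ := by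
      rw [← map_mul ev, ← e2]
    rw [hev GP ⟨G, i4⟩ hD.val.symm, hs, zero_mul, hev (b * L0 ^ m) _ rfl] at e3
    rw [map_mul, map_pow] at e3
    exact mul_ne_zero hbs (pow_ne_zero _ hL0s) e3

end Pool.Agent.H40.SF
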